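import Mathlib
import Pool.Agent.Helper30.RC.ThmA

set_option autoImplicit false

/-!
The space of rational curves of degree `e` on the general hypersurface of degree `d` in
projective `n`-space has the expected dimension for `n ≥ 2 d - 2`, in every characteristic.
-/

namespace Pool.Agent.Helper30.Old.ExpectedDimension

open Pool.Agent.Helper30.RC

theorem result (k : Type) [Field k] [IsAlgClosed k] (n d e : ℕ) (hd : 1 ≤ d)
    (hn : 2 * d ≤ n + 2) :
    ForGeneral (k := k) n d (fun f => ∀ P ∈ (curveIdeal e f).minimalPrimes,
      ringKrullDim (CoeffRing k n e ⧸ P) = ((n + 1 - d) * e + n : ℕ)) :=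
  thmA n d e hd hn

end Pool.Agent.Helper30.Old.ExpectedDimension
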