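import Mathlib
import Pool.Agent.Helper30.RC.ThmB

set_option autoImplicit false

/-!
The space of rational curves of degree `e` on the general hypersurface of degree `d ≥ 3` in
projective `n`-space is irreducible, reduced, of the expected dimension and nonempty for
`n ≥ 2 d + 1`, in every characteristic.
-/

namespace Pool.Agent.Helper30.Old.Irreducible

open Pool.Agent.Helper30.RC MvPolynomial

theorem result (k : Type) [Field k] [IsAlgClosed k] (n d e : ℕ) (hd : 3 ≤ d)
    (hn : 2 * d + 1 ≤ n) (he : 1 ≤ e) :
    ForGeneral (k := k) n d (fun f => (curveIdeal e f).IsPrime ∧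
      ringKrullDim (CoeffRing k n e ⧸ curveIdeal e f) = ((n + 1 - d) * e + n : ℕ) ∧
      ∃ F : Fin (n + 1) → Polynomial k, (∀ i, (F i).natDegree ≤ e) ∧
        (∃ i, (F i).natDegree = e) ∧ (∀ t, ∃ i, (F i).eval t ≠ 0) ∧ aeval F f = 0) :=
  thmB n d e hd hn he

end Pool.Agent.Helper30.Old.Irreducible
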